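import Pool.Agent.H111Z.Base.One

/-! The function `k0`. -/

set_option autoImplicit false

namespace Pool.Agent.H111Z.Base

open Pool.Agent.H953Z Set

noncomputable def mo (v : ℝ) : ℝ := v / (1 + |v|)
noncomputable def moD (v : ℝ) : ℝ := 1 / (1 + |v|) ^ 2

theorem mo_C1 : C1 mo moD := by
  refine ⟨piece (f1 := fun v => v / (1 - v)) (f2 := fun v => v / (1 + v)) ?_ ?_ ?_ ?_, ?_⟩
  · intro t ht
    have h : 1 - t ≠ 0 := by linarith
    refine ((hasDerivAt_id t).div ((hasDerivAt_id t).const_sub 1) h).congr_deriv ?_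
    simp only [moD, abs_of_nonpos ht, id]; rw [← sub_eq_add_neg]; congr 1; ring
  · intro t ht
    have h : 1 + t ≠ 0 := by linarith
    refine ((hasDerivAt_id t).div ((hasDerivAt_id t).const_add 1) h).congr_deriv ?_
    simp only [moD, abs_of_nonneg ht, id]; congr 1; ring
  · intro t ht; simp only [mo, abs_of_nonpos ht, sub_eq_add_neg]
  · intro t ht; simp only [mo, abs_of_nonneg ht]
  · unfold moD
    exact continuous_const.div (by fun_prop) fun v => by positivity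

noncomputable def cd (d : ℕ) : ℝ := 1 / ((d : ℝ) + 1)
noncomputable def ld (d : ℕ) : ℝ := eps * cd d ^ 2
noncomputable def tg (d : ℕ) (v : ℝ) : ℝ := cd d / (1 + cd d) + (v - cd d) / (1 + cd d) ^ 2

theorem cd_pos (d : ℕ) : 0 < cd d := by unfold cd; positivity
theorem cd_le (d : ℕ) : cd d ≤ 1 := by
  unfold cd; rw [div_le_one (by positivity)]; linarith [Nat.cast_nonneg (α := ℝ) d]
theorem ld_pos (d : ℕ) : 0 < ld d := by have := cd_pos d; unfold ld eps; positivity
theorem ax_eq (d : ℕ) (ξ : ℝ) : ax d ξ = cd d + ld d * ξ := by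
  unfold ax ld cd; rw [div_pow, one_pow]; ring
theorem cd_succ (d : ℕ) : cd (d + 1) = cd d / (1 + cd d) := by
  unfold cd; push_cast; field_simp

theorem tg_ax (d : ℕ) (ξ : ℝ) : tg d (ax d ξ) = ax (d + 1) ξ := by
  rw [ax_eq, ax_eq]; unfold tg ld; rw [cd_succ, div_pow]; ring

noncomputable def tm (d : ℕ) (v : ℝ) : ℝ := plat 1 ((v - cd d) / ld d) * (tg d v - mo v)
noncomputable def tmD (d : ℕ) (v : ℝ) : ℝ :=
  platD 1 ((v - cd d) / ld d) * (1 / ld d) * (tg d v - mo v) +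
    plat 1 ((v - cd d) / ld d) * (1 / (1 + cd d) ^ 2 - moD v)

theorem tm_C1 (d : ℕ) : C1 (tm d) (tmD d) := by
  refine ⟨fun t => ?_, ?_⟩
  · have b1 : HasDerivAt (fun t => (t - cd d) / ld d) (1 / ld d) t :=
      ((hasDerivAt_id t).sub_const _).div_const _
    have b2 : HasDerivAt (tg d) (1 / (1 + cd d) ^ 2) t :=
      (((hasDerivAt_id t).sub_const _).div_const _).const_add _
    exact (((plat_C1 1).1 _).comp t b1).mul (b2.sub (mo_C1.1 t))
  · have := (plat_C1 1).cont; have := (plat_C1 1).2; have := mo_C1.cont; have := mo_C1.2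
    unfold tmD tg; fun_prop

def Zn (d : ℕ) (v : ℝ) : Prop := |v - cd d| ≤ 2 * ld d

theorem out_zn {d : ℕ} {v : ℝ} (h : ¬ Zn d v) : 1 + 1 ≤ |(v - cd d) / ld d| := by
  rw [abs_div, abs_of_pos (ld_pos d), le_div_iff₀ (ld_pos d)]
  unfold Zn at h; linarith [not_le.1 h]

theorem tm_out {d : ℕ} {v : ℝ} (h : ¬ Zn d v) : tm d v = 0 := by
  unfold tm; rw [plat_zero (out_zn h), zero_mul]
theorem tmD_out {d : ℕ} {v : ℝ} (h : ¬ Zn d v) : tmD d v = 0 := by
  unfold tmD; rw [plat_zero (out_zn h), platD_zero (out_zn h)]; ring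

theorem ld_le (d : ℕ) : ld d ≤ cd d / 100000 := by
  have := cd_pos d; have := cd_le d
  unfold ld eps; nlinarith

theorem zn_bounds {d : ℕ} {v : ℝ} (h : Zn d v) : cd d / 2 ≤ v ∧ v ≤ 2 := by
  obtain ⟨h1, h2⟩ := abs_le.1 h
  have := cd_pos d; have := cd_le d; have := ld_le d
  constructor <;> linarith

theorem zn_lt {d d' : ℕ} {v : ℝ} (h : Zn d v) (h' : Zn d' v) (hd : d < d') : False := by
  obtain ⟨h1, h2⟩ := abs_le.1 h
  obtain ⟨h3, h4⟩ := abs_le.1 h'
  have a1 : cd d' ≤ cd (d + 1) := by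
    unfold cd
    refine one_div_le_one_div_of_le (by positivity) ?_
    have : ((d + 1 : ℕ) : ℝ) ≤ d' := by exact_mod_cast hd
    linarith
  have p := cd_pos d; have q := cd_le d; have p' := cd_pos d'
  have a2 : cd (d + 1) ≤ cd d - cd d ^ 2 / 2 := by
    rw [cd_succ, div_le_iff₀ (by linarith)]; nlinarith [mul_pos p p]
  have a3 : ld d' ≤ ld d := by
    unfold ld eps
    have : cd d' ^ 2 ≤ cd d ^ 2 := pow_le_pow_left₀ p'.le (by nlinarith) 2
    linarith
  have a4 : ld d = cd d ^ 2 / 100000 := by unfold ld eps; ring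
  nlinarith [mul_pos p p]

theorem zn_uniq {d d' : ℕ} {v : ℝ} (h : Zn d v) (h' : Zn d' v) : d' = d := by
  rcases lt_trichotomy d d' with c | c | c
  · exact (zn_lt h h' c).elim
  · exact c.symm
  · exact (zn_lt h' h c).elim

theorem diff_zn {d : ℕ} {v : ℝ} (h : Zn d v) : 0 ≤ tg d v - mo v ∧ tg d v - mo v ≤ 4 * ld d ^ 2 ∧
    |1 / (1 + cd d) ^ 2 - moD v| ≤ 4 * ld d := by
  have p := cd_pos d
  have hv : 0 < v := by linarith [(zn_bounds h).1]
  have e1 : tg d v - mo v = (v - cd d) ^ 2 / ((1 + cd d) ^ 2 * (1 + v)) := by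
    unfold tg mo; rw [abs_of_pos hv]; field_simp; ring
  have e2 : 1 / (1 + cd d) ^ 2 - moD v =
      (v - cd d) * ((2 + v + cd d) / ((1 + cd d) ^ 2 * (1 + v) ^ 2)) := by
    unfold moD; rw [abs_of_pos hv]; field_simp; ring
  have s1 : (v - cd d) ^ 2 ≤ 4 * ld d ^ 2 := by
    have := pow_le_pow_left₀ (abs_nonneg _) h 2
    rw [sq_abs] at this; linarith
  refine ⟨by rw [e1]; positivity, ?_, ?_⟩
  · rw [e1]
    refine (div_le_self (sq_nonneg _) ?_).trans s1
    nlinarith [mul_pos p hv, mul_pos p p, mul_pos (mul_pos p p) hv]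
  · rw [e2, abs_mul, abs_of_nonneg (a := _ / _) (by positivity)]
    have : (2 + v + cd d) / ((1 + cd d) ^ 2 * (1 + v) ^ 2) ≤ 2 := by
      rw [div_le_iff₀ (by positivity)]
      have t1 : 1 + cd d ≤ (1 + cd d) ^ 2 := by nlinarith
      have t2 : 1 + v ≤ (1 + v) ^ 2 := by nlinarith
      have t3 := mul_le_mul t1 t2 (by linarith) (by positivity)
      nlinarith [mul_pos p hv]
    have h' : |v - cd d| ≤ 2 * ld d := h
    calc _ ≤ (2 * ld d) * 2 := mul_le_mul h' this (by positivity) (by linarith [ld_pos d])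
      _ = _ := by ring

theorem tm_bd (d : ℕ) (v : ℝ) : 0 ≤ tm d v ∧ tm d v ≤ 4 * ld d ^ 2 := by
  by_cases h : Zn d v
  · obtain ⟨h1, h2, -⟩ := diff_zn h
    have a1 := plat_nonneg 1 ((v - cd d) / ld d)
    have a2 := plat_le 1 ((v - cd d) / ld d)
    unfold tm
    exact ⟨mul_nonneg a1 h1, (mul_le_of_le_one_left h1 a2).trans h2⟩
  · rw [tm_out h]; exact ⟨le_rfl, by positivity⟩

theorem tmD_bd (d : ℕ) (v : ℝ) : |tmD d v| ≤ 12 * ld d := by
  have lp := ld_pos d
  by_cases h : Zn d v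
  · obtain ⟨h1, h2, h3⟩ := diff_zn h
    have a1 := plat_nonneg 1 ((v - cd d) / ld d)
    have a2 := plat_le 1 ((v - cd d) / ld d)
    have a3 := platD_le 1 ((v - cd d) / ld d)
    unfold tmD
    refine (abs_add_le _ _).trans ?_
    rw [abs_mul, abs_mul, abs_mul, abs_of_nonneg h1, abs_of_nonneg a1,
      abs_of_nonneg (a := 1 / ld d) (by positivity)]
    have b1 : |platD 1 ((v - cd d) / ld d)| * (1 / ld d) * (tg d v - mo v) ≤
        2 * (1 / ld d) * (4 * ld d ^ 2) := by gcongr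
    have b2 : 2 * (1 / ld d) * (4 * ld d ^ 2) = 8 * ld d := by field_simp; ring
    have b3 := mul_le_of_le_one_left (abs_nonneg (1 / (1 + cd d) ^ 2 - moD v)) a2
    linarith
  · rw [tmD_out h, abs_zero]; positivity

theorem ld_summable : Summable fun d => 12 * ld d := by
  have h : Summable fun n : ℕ => 1 / ((n + 1 : ℕ) : ℝ) ^ 2 :=
    (summable_nat_add_iff (f := fun n : ℕ => 1 / (n : ℝ) ^ 2) 1).2
      (Real.summable_one_div_nat_pow.2 one_lt_two)
  refine ((h.mul_left eps).mul_left 12).congr fun d => ?_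
  unfold ld cd; push_cast; rw [div_pow, one_pow]

noncomputable def k0 (v : ℝ) : ℝ := mo v + ∑' d, tm d v

theorem k0_cases (v : ℝ) : (k0 v = mo v ∧ ∑' d, tmD d v = 0) ∨
    ∃ d, Zn d v ∧ k0 v = mo v + tm d v ∧ ∑' d, tmD d v = tmD d v := by
  by_cases h : ∃ d, Zn d v
  · obtain ⟨d, hd⟩ := h
    refine Or.inr ⟨d, hd, ?_, ?_⟩
    · unfold k0; rw [tsum_eq_single d fun d' h' => tm_out fun z => h' (zn_uniq hd z)]
    · rw [tsum_eq_single d fun d' h' => tmD_out fun z => h' (zn_uniq hd z)]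
  · push Not at h
    left; unfold k0
    simp [tm_out (h _), tmD_out (h _)]

theorem inc_k0 : Inc k0 := by
  refine ⟨fun v => moD v + ∑' d, tmD d v, ⟨fun v => (mo_C1.1 v).add ?_, mo_C1.2.add ?_⟩,
    fun v => ?_⟩
  · refine hasDerivAt_tsum ld_summable (fun d => (tm_C1 d).1) (fun d y => tmD_bd d y)
      (y₀ := 0) ?_ v
    have : ∀ d, tm d 0 = 0 := fun d => tm_out fun h => by
      linarith [(zn_bounds h).1, cd_pos d]
    simp only [this]; exact summable_zero
  · exact continuous_tsum (fun d => (tm_C1 d).2) ld_summable fun d y => tmD_bd d y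
  · rcases k0_cases v with ⟨-, h⟩ | ⟨d, hd, -, h⟩
    · simp only [h, add_zero]; unfold moD; positivity
    · simp only [h]
      obtain ⟨h1, h2⟩ := zn_bounds hd
      have p := cd_pos d
      have hv : 0 < v := by linarith
      have a1 : 1 / 9 ≤ moD v := by
        unfold moD; rw [abs_of_pos hv]
        exact one_div_le_one_div_of_le (by positivity) (by nlinarith)
      have a2 := (abs_le.1 (tmD_bd d v)).1
      linarith [ld_le d, cd_le d]

theorem k0_ax (d : ℕ) (ξ : ℝ) (h : |ξ| ≤ 1) : k0 (ax d ξ) = ax (d + 1) ξ := by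
  have lp := ld_pos d
  have e : (ax d ξ - cd d) / ld d = ξ := by rw [ax_eq]; field_simp; ring
  have hz : Zn d (ax d ξ) := by
    unfold Zn; rw [ax_eq, add_sub_cancel_left, abs_mul, abs_of_pos lp]; nlinarith
  rcases k0_cases (ax d ξ) with ⟨-, -⟩ | ⟨d', -, -, -⟩ <;>
  · unfold k0
    rw [tsum_eq_single d fun d' h' => tm_out fun z => h' (zn_uniq hz z)]
    unfold tm; rw [e, plat_one h, tg_ax]; ring

theorem mo_abs_lt (v : ℝ) : |mo v| < 1 := by
  unfold mo; rw [abs_div, abs_of_pos (a := 1 + |v|) (by positivity), div_lt_one (by positivity)]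
  linarith

theorem mo_le {v : ℝ} {a : ℝ} (ha : 0 ≤ a) (h : v ≤ a) : mo v ≤ a / (1 + a) := by
  unfold mo
  rw [div_le_div_iff₀ (by positivity) (by positivity)]
  rcases le_total 0 v with c | c
  · rw [abs_of_nonneg c]; nlinarith
  · rw [abs_of_nonpos c]; nlinarith

theorem k0_le_mo (v : ℝ) : mo v ≤ k0 v ∧ k0 v ≤ mo v + 1 / 100 := by
  rcases k0_cases v with ⟨h, -⟩ | ⟨d, hd, h, -⟩
  · rw [h]; constructor <;> linarith
  · obtain ⟨a1, a2⟩ := tm_bd d v
    have := ld_le d; have := cd_le d; have := ld_pos d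
    rw [h]; constructor <;> nlinarith

theorem k0_le (v : ℝ) (h : v ≤ 2) : k0 v ≤ 3 / 4 := by
  have := mo_le (by norm_num) h
  linarith [(k0_le_mo v).2]

theorem k0_le3 (v : ℝ) (h : v ≤ 3) : k0 v ≤ 4 / 5 := by
  have := mo_le (by norm_num) h
  linarith [(k0_le_mo v).2]

theorem k0_abs (v : ℝ) : |k0 v| ≤ 1 := by
  obtain ⟨a1, a2⟩ := abs_lt.1 (mo_abs_lt v)
  rw [abs_le]
  refine ⟨by linarith [(k0_le_mo v).1], ?_⟩
  rcases k0_cases v with ⟨h, -⟩ | ⟨d, hd, -, -⟩
  · rw [h]; exact a2.le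
  · linarith [k0_le v (zn_bounds hd).2]

theorem k0_zero : k0 0 = 0 := by
  rcases k0_cases 0 with ⟨h, -⟩ | ⟨d, hd, -, -⟩
  · rw [h]; simp [mo]
  · linarith [(zn_bounds hd).1, cd_pos d]

theorem k0_lt (v : ℝ) (hv : v ≠ 0) : |k0 v| < |v| := by
  rcases k0_cases v with ⟨h, -⟩ | ⟨d, hd, h, -⟩
  · rw [h]; unfold mo
    have := abs_pos.2 hv
    rw [abs_div, abs_of_pos (a := 1 + |v|) (by positivity)]
    exact div_lt_self this (by linarith)
  · obtain ⟨h1, h2⟩ := zn_bounds hd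
    have p := cd_pos d
    have hv : 0 < v := by linarith
    obtain ⟨a1, a2⟩ := tm_bd d v
    have a3 : 0 ≤ mo v := by unfold mo; positivity
    have a4 : mo v ≤ v - v ^ 2 / 3 := by
      unfold mo; rw [abs_of_pos hv, div_le_iff₀ (by positivity)]; nlinarith [mul_pos hv hv]
    have a5 := ld_le d; have a6 := ld_pos d
    have a7 : ld d ≤ v / 50000 := by linarith
    have a8 : ld d ^ 2 ≤ (v / 50000) ^ 2 := pow_le_pow_left₀ a6.le a7 2
    rw [h, abs_of_nonneg (by linarith), abs_of_pos hv]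
    nlinarith [mul_pos hv hv]

end Pool.Agent.H111Z.Base
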