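import Pool.Agent.H111Z.Base.K0

/-! The base map. -/

set_option autoImplicit false

namespace Pool.Agent.H111Z.Base

open Pool.Agent.H953Z Set

noncomputable def kap : ℝ → ℝ :=
  glue (-69 / 4) (1 / 20) (fun y => 18 + 1 * y) fun y => (1 - eps / 2) + eps / 18 * y

theorem inc_kap : Inc kap :=
  inc_glue (by norm_num) (inc_aff _ one_pos) (inc_aff _ (by unfold eps; norm_num))
    fun t h1 h2 => by unfold eps; linarith

theorem kap_low (y : ℝ) (h : y ≤ -18 + 3 / 4) : kap y = y + 18 := by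
  unfold kap; rw [glue_left (by norm_num) _ _ (by linarith)]; ring
theorem kap_high (y : ℝ) (h : -17 ≤ y) : kap y = (1 - eps / 2) + eps / 18 * y := by
  unfold kap; rw [glue_right (by norm_num) _ _ (by linarith)]
theorem kap_le (y : ℝ) (h : y ≤ 141) : kap y ≤ 2 := by
  rcases le_total y (-17) with c | c
  · exact glue_le (by linarith) (by unfold eps; linarith)
  · rw [kap_high y c]; unfold eps; linarith
theorem le_kap (y : ℝ) (h : -141 ≤ y) : -123 ≤ kap y :=
  le_glue (by linarith) (by unfold eps; linarith)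

theorem kap_ay (d : ℕ) (η : ℝ) (h : |η| ≤ 1) : kap (ay d η) = ax d η := by
  obtain ⟨h1, h2⟩ := abs_le.1 h
  unfold ay
  split_ifs with hd
  · subst hd
    rw [kap_high _ (by linarith)]; unfold ax; push_cast; ring
  · have a1 : cd d ≤ 1 / 2 := by
      unfold cd
      refine one_div_le_one_div_of_le (by norm_num) ?_
      have : (1 : ℝ) ≤ d := by exact_mod_cast Nat.one_le_iff_ne_zero.2 hd
      linarith
    have a2 := ld_le d
    have a3 := ld_pos d
    rw [kap_low _ (by rw [ax_eq]; nlinarith)]; ring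

noncomputable def hh : ℝ → ℝ :=
  glue (-34) 1 (fun x => k0 (36 + 1 * x))
    (glue 2 1 (fun x => (1 - eps / 2) + lam * x) fun x => (1 + eps / 2 - 36 * lam) + lam * x)

theorem inc_hh : Inc hh := by
  have hl : 0 < lam := by unfold lam; norm_num
  refine inc_glue one_pos (inc_k0.comp (inc_aff _ one_pos))
    (inc_glue one_pos (inc_aff _ hl) (inc_aff _ hl) fun t _ _ => ?_) fun t h1 h2 => ?_
  · unfold eps lam; linarith
  · rw [glue_left one_pos _ _ (by linarith)]
    have := k0_le3 (36 + 1 * t) (by linarith)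
    unfold eps lam; linarith

theorem hh_abs (t : ℝ) (h : |t| ≤ 280 + 1) : |hh t| ≤ 2 := by
  obtain ⟨h1, h2⟩ := abs_le.1 h
  obtain ⟨h3, h4⟩ := abs_le.1 (k0_abs (36 + 1 * t))
  rw [abs_le]; constructor
  · exact le_glue (by linarith) (le_glue (by unfold eps lam; linarith) (by unfold eps lam; linarith))
  · exact glue_le (by linarith) (glue_le (by unfold eps lam; linarith) (by unfold eps lam; linarith))

noncomputable def gh : ℝ → ℝ := cap 280 hh

theorem gh_left {X : ℝ} (h : |X + 36| ≤ 2) : gh X = k0 (X + 36) := by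
  obtain ⟨h1, h2⟩ := abs_le.1 h
  unfold gh; rw [cap_in (by norm_num) (abs_le.2 ⟨by linarith, by linarith⟩)]
  unfold hh; rw [glue_left one_pos _ _ (by linarith)]; congr 1; ring
theorem gh_mid {X : ℝ} (h : |X| ≤ 2) : gh X = 1 - (eps / 2 + lam * -X) := by
  obtain ⟨h1, h2⟩ := abs_le.1 h
  unfold gh; rw [cap_in (by norm_num) (abs_le.2 ⟨by linarith, by linarith⟩)]
  unfold hh; rw [glue_right one_pos _ _ (by linarith), glue_left one_pos _ _ h2]; ring
theorem gh_right {X : ℝ} (h : |X - 36| ≤ 2) : gh X = 1 + (eps / 2 + lam * (X - 36)) := by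
  obtain ⟨h1, h2⟩ := abs_le.1 h
  unfold gh; rw [cap_in (by norm_num) (abs_le.2 ⟨by linarith, by linarith⟩)]
  unfold hh; rw [glue_right one_pos _ _ (by linarith), glue_right one_pos _ _ (by linarith)]; ring

noncomputable def f0 (y : ℝ) : ℝ := k0 (kap y)
noncomputable def f1 (y : ℝ) : ℝ := 0 + 18 * lam / eps * kap y
theorem f0_abs (t : ℝ) : |f0 t| ≤ 1 := k0_abs _
theorem f1_abs (t : ℝ) (h : |t| ≤ 140 + 1) : |f1 t| ≤ 1 := by
  obtain ⟨h1, h2⟩ := abs_le.1 h
  have a1 := kap_le t (by linarith)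
  have a2 := le_kap t (by linarith)
  unfold f1 lam eps; rw [abs_le]; constructor <;> linarith
theorem f0_abs' (t : ℝ) (_ : |t| ≤ 140 + 1) : |f0 t| ≤ 2 := (f0_abs t).trans one_le_two
theorem f1_abs' (t : ℝ) (h : |t| ≤ 140 + 1) : |f1 t| ≤ 2 := (f1_abs t h).trans one_le_two
noncomputable def K0 : ℝ → ℝ := cap 140 f0
noncomputable def K1 : ℝ → ℝ := cap 140 f1
theorem inc_K0 : Inc K0 := inc_cap (by norm_num) f0_abs' (inc_k0.comp inc_kap)
theorem inc_K1 : Inc K1 :=
  inc_cap (by norm_num) f1_abs' ((inc_aff 0 (by unfold lam eps; norm_num)).comp inc_kap)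
theorem inc_gh : Inc gh := inc_cap (by norm_num) hh_abs inc_hh

noncomputable def u1 (z : ℝ × ℝ) : ℝ := (gh z.1 - z.1) * plat 140 z.2
noncomputable def WW (z : ℝ × ℝ) : ℝ := (1 - ramp (z.1 + 34)) * K0 z.2 + ramp (z.1 + 34) * K1 z.2
noncomputable def u2 (z : ℝ × ℝ) : ℝ := plat 280 z.1 * (WW z - z.2)
noncomputable def P1i (z : ℝ × ℝ) : ℝ × ℝ := z + u1 z • dir 1
noncomputable def P2 (z : ℝ × ℝ) : ℝ × ℝ := z + u2 z • dir 0

theorem P1i_eq (z : ℝ × ℝ) : P1i z = (z.1 + u1 z, z.2) := by ext <;> simp [P1i, dir]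
theorem P2_eq (z : ℝ × ℝ) : P2 z = (z.1, z.2 + u2 z) := by ext <;> simp [P2, dir]

theorem fderiv_dir {u : ℝ × ℝ → ℝ} (hu : ContDiff ℝ 1 u) (z v : ℝ × ℝ) {D : ℝ}
    (h : HasDerivAt (fun t : ℝ => u (z + t • v)) D 0) : fderiv ℝ u z v = D :=
  ((hu.differentiable one_ne_zero z).hasFDerivAt.hasLineDerivAt v).unique h

theorem isD_P1i (T : S_tri) : IsD P1i := by
  obtain ⟨D, h1, h2⟩ := inc_gh
  have c : ContDiff ℝ 1 u1 :=
    ((h1.contDiff.comp contDiff_fst).sub contDiff_fst).mul ((plat_C1 140).contDiff.comp contDiff_snd)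
  refine T.2.2 1 u1 c ⟨2 * (280 + 1), fun z => ?_⟩ fun z => ?_
  · unfold u1
    rw [abs_mul, abs_of_nonneg (plat_nonneg _ _)]
    exact (mul_le_of_le_one_right (abs_nonneg _) (plat_le _ _)).trans
      (cap_bdd (by norm_num) hh_abs _)
  · have : HasDerivAt (fun t : ℝ => u1 (z + t • dir 1)) ((D (z.1 + 0) - 1) * plat 140 z.2) 0 := by
      have e : (fun t : ℝ => u1 (z + t • dir 1)) =
          fun t => (gh (z.1 + t) - (z.1 + t)) * plat 140 z.2 := by
        funext t; simp [u1, dir]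
      rw [e]
      exact (((h1.1 _).comp_const_add z.1 0).sub ((hasDerivAt_id 0).const_add z.1)).mul_const _
    rw [fderiv_dir c z _ this]
    have a1 := h2 (z.1 + 0); have a2 := plat_nonneg 140 z.2; have a3 := plat_le 140 z.2
    rcases le_total (D (z.1 + 0)) 1 with c | c <;> nlinarith

theorem isD_P2 (T : S_tri) : IsD P2 := by
  obtain ⟨D, h1, h2⟩ := inc_K0
  obtain ⟨E, h3, h4⟩ := inc_K1
  have cr : ContDiff ℝ 1 fun z : ℝ × ℝ => ramp (z.1 + 34) :=
    ramp_C1.contDiff.comp (contDiff_fst.add contDiff_const)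
  have c : ContDiff ℝ 1 u2 :=
    ((plat_C1 280).contDiff.comp contDiff_fst).mul
      ((((contDiff_const.sub cr).mul (h1.contDiff.comp contDiff_snd)).add
        (cr.mul (h3.contDiff.comp contDiff_snd))).sub contDiff_snd)
  refine T.2.2 0 u2 c ⟨2 * (140 + 1), fun z => ?_⟩ fun z => ?_
  · unfold u2
    rw [abs_mul, abs_of_nonneg (plat_nonneg _ _)]
    refine (mul_le_of_le_one_left (abs_nonneg _) (plat_le _ _)).trans ?_
    obtain ⟨a1, a2⟩ := abs_le.1 (cap_bdd (R := 140) (by norm_num) f0_abs' z.2)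
    obtain ⟨a3, a4⟩ := abs_le.1 (cap_bdd (R := 140) (by norm_num) f1_abs' z.2)
    have a5 := ramp_nonneg (z.1 + 34); have a6 := ramp_le (z.1 + 34)
    unfold WW K0 K1; rw [abs_le]; constructor <;> nlinarith
  · have : HasDerivAt (fun t : ℝ => u2 (z + t • dir 0)) (plat 280 z.1 *
        ((1 - ramp (z.1 + 34)) * D (z.2 + 0) + ramp (z.1 + 34) * E (z.2 + 0) - 1)) 0 := by
      have e : (fun t : ℝ => u2 (z + t • dir 0)) = fun t => plat 280 z.1 *
          ((1 - ramp (z.1 + 34)) * K0 (z.2 + t) + ramp (z.1 + 34) * K1 (z.2 + t) - (z.2 + t)) := by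
        funext t; simp [u2, WW, dir]
      rw [e]
      exact (((((h1.1 _).comp_const_add z.2 0).const_mul _).add
        (((h3.1 _).comp_const_add z.2 0).const_mul _)).sub
        ((hasDerivAt_id 0).const_add z.2)).const_mul _
    rw [fderiv_dir c z _ this]
    have a1 := h2 (z.2 + 0); have a1' := h4 (z.2 + 0)
    have a2 := plat_nonneg 280 z.1; have a3 := plat_le 280 z.1
    have a5 := ramp_nonneg (z.1 + 34); have a6 := ramp_le (z.1 + 34)
    have a7 : 0 < (1 - ramp (z.1 + 34)) * D (z.2 + 0) + ramp (z.1 + 34) * E (z.2 + 0) := by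
      rcases le_total (D (z.2 + 0)) (E (z.2 + 0)) with c | c <;> nlinarith
    generalize (1 - ramp (z.1 + 34)) * D (z.2 + 0) + ramp (z.1 + 34) * E (z.2 + 0) = q at a7
    rcases le_total q 1 with c | c <;> nlinarith

def sc (c : ℝ) (z : ℝ × ℝ) : ℝ × ℝ := (c * z.1, z.2)

theorem isD_sc {c : ℝ} (hc : c ≠ 0) : IsD (sc c) := by
  let A : (ℝ × ℝ) →L[ℝ] (ℝ × ℝ) :=
    (c • ContinuousLinearMap.fst ℝ ℝ ℝ).prod (ContinuousLinearMap.snd ℝ ℝ ℝ)
  have e : sc c = A := by funext z; simp [sc, A]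
  have hi : Function.Injective (sc c) := fun z w h => by
    simp only [sc, Prod.mk.injEq] at h
    exact Prod.ext (mul_left_cancel₀ hc h.1) h.2
  refine ⟨e ▸ A.contDiff, ⟨hi, fun z => ⟨(z.1 / c, z.2), ?_⟩⟩, fun z => ?_⟩
  · ext
    · simp only [sc]; field_simp
    · rfl
  · rw [e, A.fderiv, ← e]; exact hi

section
variable {g : Fin 4 → ℝ × ℝ → ℝ} {C : ℝ} (M : Model g C)
include M

theorem isD_stp (T : S_tri) (p : Fin 4) : IsD (stp g 1 p) := by
  have e : stp g 1 p = fun z => z + g p z • dir p := by funext z; simp [stp]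
  rw [e]
  refine T.2.2 p (g p) (M.smooth p) ?_ fun z => by linarith [(abs_le.1 (M.half p z)).1]
  obtain ⟨K, hK⟩ := (isCompact_closedBall (0 : ℝ × ℝ) 139).exists_bound_of_continuousOn
    (M.smooth p).continuous.continuousOn
  refine ⟨max K 0, fun z => ?_⟩
  rcases le_total 139 ‖z‖ with c | c
  · rw [M.supp p z c]; simp
  · exact (hK z (by simpa using c)).trans (le_max_left _ _)

theorem isD_zig (T : S_tri) : IsD (zig g 1) := by
  have := T.1 _ _ (isD_stp M T 3)
    (T.1 _ _ (isD_stp M T 2) (T.1 _ _ (isD_stp M T 1) (isD_stp M T 0)))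
  exact this

theorem zig_out {z : ℝ × ℝ} (h : 139 ≤ ‖z‖) : zig g 1 z = z := by
  have : ∀ p, stp g 1 p z = z := fun p => by simp [stp, M.supp p z h]
  simp [zig, this]

theorem zig_in (T : S_tri) {z : ℝ × ℝ} (h : ‖z‖ < 139) : ‖zig g 1 z‖ < 139 := by
  by_contra hc
  have := (isD_zig M T).2.1.1 (zig_out M (not_lt.1 hc))
  rw [this] at hc
  exact hc h

end

noncomputable def Phi (g : Fin 4 → ℝ × ℝ → ℝ) (z : ℝ × ℝ) : ℝ × ℝ :=
  sc 2 (zig g 1 (sc (1 / 2) z))

theorem abs_conv {a b s M : ℝ} (h0 : 0 ≤ s) (h1 : s ≤ 1) (ha : |a| ≤ M) (hb : |b| ≤ M) :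
    |(1 - s) * a + s * b| ≤ M := by
  obtain ⟨a1, a2⟩ := abs_le.1 ha
  obtain ⟨a3, a4⟩ := abs_le.1 hb
  rw [abs_le]; constructor <;> nlinarith

theorem WW_in {z : ℝ × ℝ} (h : |z.2| ≤ 140) : |WW z| ≤ 1 := by
  unfold WW K0 K1
  rw [cap_in (by norm_num) h, cap_in (by norm_num) h]
  exact abs_conv (ramp_nonneg _) (ramp_le _) (f0_abs _) (f1_abs _ (by linarith))

theorem WW_mid {z : ℝ × ℝ} (h : 140 < |z.2|) (h' : |z.2| < 140 + 1) : |WW z| < |z.2| :=
  lt_of_le_of_lt (abs_conv (ramp_nonneg _) (ramp_le _) (le_max_left _ _) (le_max_right _ _))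
    (max_lt (cap_mid (by norm_num) f0_abs' h h') (cap_mid (by norm_num) f1_abs' h h'))

theorem WW_out {z : ℝ × ℝ} (h : 140 + 1 ≤ |z.2|) : WW z = z.2 := by
  unfold WW K0 K1
  rw [cap_out (by norm_num) h, cap_out (by norm_num) h]; ring

theorem Y_eq (z : ℝ × ℝ) : z.2 + u2 z = (1 - plat 280 z.1) * z.2 + plat 280 z.1 * WW z := by
  unfold u2; ring

theorem Y_le (z : ℝ × ℝ) : |z.2 + u2 z| ≤ max |z.2| 140 := by
  rw [Y_eq]
  refine abs_conv (plat_nonneg _ _) (plat_le _ _) (le_max_left _ _) ?_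
  rcases le_or_gt |z.2| 140 with c | c
  · exact le_max_of_le_right ((WW_in c).trans (by norm_num))
  rcases lt_or_ge |z.2| (140 + 1) with c' | c'
  · exact le_max_of_le_left (WW_mid c c').le
  · rw [WW_out c']; exact le_max_left _ _

theorem base_ok : S_tri → S_model → ∃ B, BaseOK B k0 kap := by
  rintro T ⟨g, C, M⟩
  obtain ⟨P1, d1, l1, r1⟩ := T.2.1 _ (isD_P1i T)
  have phi_out : ∀ z : ℝ × ℝ, (278 ≤ |z.1| ∨ 139 ≤ |z.2|) → Phi g z = z := by
    intro z hz
    have : 139 ≤ ‖sc (1 / 2) z‖ := by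
      rw [Prod.norm_def]
      simp only [sc, Real.norm_eq_abs, abs_mul]
      rcases hz with hz | hz
      · refine le_max_of_le_left ?_
        rw [abs_of_pos (show (0 : ℝ) < 1 / 2 by norm_num)]; linarith
      · exact le_max_of_le_right hz
    unfold Phi; rw [zig_out M this]
    ext <;> simp [sc]
  have phi_snd : ∀ z : ℝ × ℝ, |(Phi g z).2| < 139 ∨ Phi g z = z := by
    intro z
    rcases lt_or_ge ‖sc (1 / 2) z‖ 139 with c | c
    · left
      exact lt_of_le_of_lt (norm_snd_le (zig g 1 (sc (1 / 2) z))) (zig_in M T c)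
    · right
      unfold Phi; rw [zig_out M c]
      ext <;> simp [sc]
  have p1_in : ∀ X y : ℝ, |y| ≤ 140 → P1 (gh X, y) = (X, y) := by
    intro X y hy
    rw [← l1 (X, y), P1i_eq]
    simp [u1, plat_one hy]
  have p1_rep : ∀ z : ℝ × ℝ, ∃ X, P1 z = (X, z.2) ∧ z.1 = X + (gh X - X) * plat 140 z.2 := by
    intro z
    have h := r1 z
    rw [P1i_eq] at h
    have h2 : (P1 z).2 = z.2 := (Prod.ext_iff.1 h).2
    have h1 : (P1 z).1 + u1 (P1 z) = z.1 := (Prod.ext_iff.1 h).1
    exact ⟨(P1 z).1, Prod.ext rfl h2, by rw [← h1, u1, h2]⟩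
  have p2_in : ∀ X y : ℝ, |X| ≤ 280 → P2 (X, y) = (X, WW (X, y)) := by
    intro X y hX
    rw [P2_eq]; simp [u2, plat_one hX]
  have p2_out : ∀ X y : ℝ, 280 + 1 ≤ |X| → P2 (X, y) = (X, y) := by
    intro X y hX
    rw [P2_eq]; simp [u2, plat_zero hX]
  have half : ∀ {a b : ℝ}, |a| ≤ 2 → b = a / 2 → |b| ≤ 1 := by
    intro a b h e
    obtain ⟨h1, h2⟩ := abs_le.1 h
    rw [e, abs_le]; constructor <;> linarith
  have dbl : ∀ {a b : ℝ}, |b| ≤ 1 → a = 2 * b → |a| ≤ 2 := by
    intro a b h e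
    obtain ⟨h1, h2⟩ := abs_le.1 h
    rw [e, abs_le]; constructor <;> linarith
  have phi_l : ∀ X Y : ℝ, |X + 36| ≤ 2 → |Y| ≤ 1 → Phi g (X, Y) = (X + 36, Y - 18) := by
    intro X Y h1 h2
    unfold Phi; rw [M.left 1 le_rfl _ (half h1 (by simp only [sc]; ring)) h2]
    ext <;> simp only [sc]; ring
  have phi_m : ∀ X Y : ℝ, |X| ≤ 2 → |Y| ≤ 1 → Phi g (X, Y) = (-X, -Y) := by
    intro X Y h1 h2
    unfold Phi; rw [M.mid 1 le_rfl _ (half h1 (by simp only [sc]; ring)) h2]
    ext <;> simp only [sc]; ring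
  have phi_r : ∀ X Y : ℝ, |X - 36| ≤ 2 → |Y| ≤ 1 → Phi g (X, Y) = (X - 36, Y + 18) := by
    intro X Y h1 h2
    unfold Phi; rw [M.right 1 le_rfl _ (half h1 (by simp only [sc]; ring)) h2]
    ext <;> simp only [sc]; ring
  refine ⟨fun z => Phi g (P2 (P1 z)), ?_, ⟨281, fun z hz => ?_⟩, k0_ax, kap_ay, kap_low,
    fun y hy => kap_le y (by linarith), k0_zero, k0_lt, k0_le, ?_, ?_, ?_, ?_, ?_, ?_⟩
  · have := T.1 _ _ (T.1 _ _ (isD_sc two_ne_zero) (T.1 _ _ (isD_zig M T)
      (isD_sc (c := 1 / 2) (by norm_num)))) (T.1 _ _ (isD_P2 T) d1)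
    exact this
  · rw [Prod.norm_def, Real.norm_eq_abs, Real.norm_eq_abs, le_max_iff] at hz
    have a1 : P1i z = z := by
      rw [P1i_eq]; unfold u1
      rcases hz with hz | hz
      · unfold gh; rw [cap_out (by norm_num) (by linarith)]; simp
      · rw [plat_zero (by linarith)]; simp
    have a2 : P1 z = z := by conv_lhs => rw [← a1, l1]
    have a3 : P2 z = z := by
      rw [P2_eq]; unfold u2
      rcases hz with hz | hz
      · rw [plat_zero (by linarith)]; simp
      · rw [WW_out (by linarith)]; simp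
    show Phi g (P2 (P1 z)) = z
    rw [a2, a3, phi_out z (hz.imp (fun h => by linarith) fun h => by linarith)]
  · intro x y hx hy
    obtain ⟨h1, h2⟩ := abs_le.1 hx
    have e : k0 x = gh (x - 36) := by rw [gh_left (by simpa using hx)]; simp
    show Phi g (P2 (P1 (k0 x, y))) = _
    rw [e, p1_in _ _ hy, p2_in _ _ (abs_le.2 ⟨by linarith, by linarith⟩),
      phi_l _ _ (by simpa using hx) (WW_in hy)]
    unfold WW K0
    simp only
    rw [ramp_zero (by linarith), cap_in (by norm_num) hy]; simp [f0]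
  · intro b x y hx hy
    obtain ⟨h1, h2⟩ := abs_le.1 hx
    show Phi g (P2 (P1 (1 + sg b * (eps / 2 + lam * x), y))) = _
    cases b
    · have e : 1 + sg false * (eps / 2 + lam * x) = gh (-x) := by
        rw [gh_mid (by simpa using hx)]; simp [sg]; ring
      rw [e, p1_in _ _ hy, p2_in _ _ (abs_le.2 ⟨by linarith, by linarith⟩),
        phi_m _ _ (by simpa using hx) (WW_in hy)]
      unfold WW K1
      simp only
      rw [ramp_one (by linarith), cap_in (by norm_num) hy]; simp [f1, sg]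
    · have e : 1 + sg true * (eps / 2 + lam * x) = gh (x + 36) := by
        rw [gh_right (by simpa using hx)]; simp [sg]
      rw [e, p1_in _ _ hy, p2_in _ _ (abs_le.2 ⟨by linarith, by linarith⟩),
        phi_r _ _ (by simpa using hx) (WW_in hy)]
      unfold WW K1
      simp only
      rw [ramp_one (by linarith), cap_in (by norm_num) hy]; simp [f1, sg]; ring
  · intro z _ hy hB
    obtain ⟨X, e1, e2⟩ := p1_rep z
    rw [plat_one hy, mul_one, add_sub_cancel] at e2
    simp only [e1] at hB ⊢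
    rcases le_or_gt |X| 280 with c | c
    · rw [p2_in _ _ c] at hB ⊢
      have hW := WW_in (z := (X, z.2)) hy
      have hz : |(zig g 1 (sc (1 / 2) (X, WW (X, z.2)))).1| ≤ 1 :=
        half hB (by simp only [Phi, sc]; ring)
      rcases M.cross 1 le_rfl _ hW hz with h | h | h
      · have h' : |X + 36| ≤ 2 := dbl h (by simp only [sc]; ring)
        left; rw [phi_l _ _ h' hW, e2, gh_left h']
      · have h' : |X| ≤ 2 := dbl h (by simp only [sc]; ring)
        right; refine ⟨false, ?_⟩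
        rw [phi_m _ _ h' hW, e2, gh_mid h']; simp [sg]; ring
      · have h' : |X - 36| ≤ 2 := dbl h (by simp only [sc]; ring)
        right; refine ⟨true, ?_⟩
        rw [phi_r _ _ h' hW, e2, gh_right h']; simp [sg]
    · exfalso
      rw [P2_eq, phi_out _ (Or.inl (by simp only; linarith))] at hB
      simp only at hB; linarith
  · intro z
    obtain ⟨X, e1, -⟩ := p1_rep z
    simp only [e1]
    refine max_le ?_ (le_max_right _ _)
    rcases phi_snd (P2 (X, z.2)) with h | h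
    · exact le_max_of_le_right (by linarith)
    · rw [h, P2_eq]; exact Y_le (X, z.2)
  · intro z hy hB
    obtain ⟨X, e1, e2⟩ := p1_rep z
    simp only [e1] at hB ⊢
    rcases phi_snd (P2 (X, z.2)) with h | h
    · exfalso; linarith
    rw [h] at hB ⊢
    rcases lt_or_ge |z.2| (140 + 1) with c | c
    · have hX : 280 + 1 ≤ |X| := by
        by_contra hc
        have a1 := plat_pos (not_le.1 hc)
        have a2 := plat_le 280 X
        have a3 := WW_mid (z := (X, z.2)) hy c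
        rw [P2_eq, Y_eq] at hB
        have a4 := abs_add_le ((1 - plat 280 X) * z.2) (plat 280 X * WW (X, z.2))
        rw [abs_mul, abs_mul, abs_of_nonneg (sub_nonneg.2 a2), abs_of_pos a1] at a4
        simp only at hB a3
        rw [hB] at a4
        nlinarith
      rw [p2_out _ _ hX]
      unfold gh at e2
      rw [cap_out (by norm_num) hX] at e2
      exact Prod.ext (by simp [e2]) rfl
    · rw [plat_zero c] at e2
      rw [P2_eq]; unfold u2
      rw [WW_out (z := (X, z.2)) c]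
      exact Prod.ext (by simp [e2]) (by simp)
  · intro z hy hx
    obtain ⟨X, e1, e2⟩ := p1_rep z
    rw [plat_one hy, mul_one, add_sub_cancel] at e2
    simp only [e1]
    have hX : 280 < |X| := by
      by_contra hc
      have := hh_abs X (by linarith [not_lt.1 hc])
      unfold gh at e2
      rw [cap_in (by norm_num) (not_lt.1 hc)] at e2
      rw [e2] at hx; linarith
    have a1 : Phi g (P2 (X, z.2)) = P2 (X, z.2) :=
      phi_out _ (Or.inl (by rw [P2_eq]; simp only; linarith))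
    have a2 : (P2 (X, z.2)).1 = X := by rw [P2_eq]
    rw [a1, a2, e2]
    refine ⟨cap_le (by norm_num) hh_abs hX, fun h => ?_⟩
    have hX' : 280 + 1 ≤ |X| := by
      by_contra hc
      have := cap_mid (by norm_num) hh_abs hX (not_le.1 hc)
      unfold gh at h; linarith
    rw [p2_out _ _ hX']
    unfold gh at e2
    rw [cap_out (by norm_num) hX'] at e2
    exact Prod.ext e2.symm rfl

theorem thm_base : S_tri → S_model → S_base := fun T M =>
  let ⟨B, h⟩ := base_ok T M
  ⟨B, k0, kap, h⟩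

theorem thm_base' : S_tri → S_model →
    ∃ B k0 kap, BaseOK B k0 kap ∧ (∀ y, -140 ≤ y → -122 ≤ kap y) := fun T M =>
  let ⟨B, h⟩ := base_ok T M
  ⟨B, k0, kap, h, fun y _ => le_glue (by linarith) (by unfold eps; linarith)⟩

end Pool.Agent.H111Z.Base
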