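import Pool.Agent.H953Z.St

/-! One-dimensional building blocks for the base map. -/

set_option autoImplicit false

namespace Pool.Agent.H111Z.Base

open Pool.Agent.H953Z Set

/-- `f` is `C^1` with derivative `D` -/
def C1 (f D : ℝ → ℝ) : Prop := (∀ t, HasDerivAt f (D t) t) ∧ Continuous D

theorem C1.contDiff {f D : ℝ → ℝ} (h : C1 f D) : ContDiff ℝ 1 f := by
  rw [contDiff_one_iff_deriv]
  refine ⟨fun t => (h.1 t).differentiableAt, ?_⟩
  have : deriv f = D := funext fun t => (h.1 t).deriv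
  rw [this]; exact h.2

theorem C1.cont {f D : ℝ → ℝ} (h : C1 f D) : Continuous f := h.contDiff.continuous

theorem piece {f D f1 f2 : ℝ → ℝ} (h1 : ∀ t ≤ 0, HasDerivAt f1 (D t) t)
    (h2 : ∀ t, 0 ≤ t → HasDerivAt f2 (D t) t) (e1 : ∀ t ≤ 0, f t = f1 t)
    (e2 : ∀ t, 0 ≤ t → f t = f2 t) (t : ℝ) : HasDerivAt f (D t) t := by
  rcases lt_trichotomy t 0 with h | rfl | h
  · refine (h1 t h.le).congr_of_eventuallyEq ?_
    filter_upwards [Iio_mem_nhds h] with s hs using e1 s (le_of_lt hs)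
  · have a1 : HasDerivWithinAt f (D 0) (Iic 0) 0 :=
      (h1 0 le_rfl).hasDerivWithinAt.congr (fun s hs => e1 s hs) (e1 0 le_rfl)
    have a2 : HasDerivWithinAt f (D 0) (Ici 0) 0 :=
      (h2 0 le_rfl).hasDerivWithinAt.congr (fun s hs => e2 s hs) (e2 0 le_rfl)
    have := a1.union a2
    rwa [Iic_union_Ici, hasDerivWithinAt_univ] at this
  · refine (h2 t h.le).congr_of_eventuallyEq ?_
    filter_upwards [Ioi_mem_nhds h] with s hs using e2 s (le_of_lt hs)

theorem sq_pos_deriv (t : ℝ) : HasDerivAt (fun t : ℝ => (max t 0) ^ 2) (2 * max t 0) t := by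
  refine piece (D := fun t => 2 * max t 0) (f1 := fun _ => 0) (f2 := fun t => t ^ 2) ?_ ?_ ?_ ?_ t
  · intro t ht; simpa [max_eq_right ht] using hasDerivAt_const t (0 : ℝ)
  · intro t ht; simpa [max_eq_left ht] using hasDerivAt_pow 2 t
  · intro t ht; simp [max_eq_right ht]
  · intro t ht; simp [max_eq_left ht]

noncomputable def ramp (t : ℝ) : ℝ :=
  2 * ((max t 0) ^ 2 - 2 * (max (t - 1 / 2) 0) ^ 2 + (max (t - 1) 0) ^ 2)
noncomputable def rampD (t : ℝ) : ℝ :=
  4 * (max t 0 - 2 * max (t - 1 / 2) 0 + max (t - 1) 0)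

theorem ramp_C1 : C1 ramp rampD := by
  refine ⟨fun t => ?_, by unfold rampD; fun_prop⟩
  have h0 := sq_pos_deriv t
  have h1 := (sq_pos_deriv (t - 1 / 2)).comp_sub_const t (1 / 2)
  have h2 := (sq_pos_deriv (t - 1)).comp_sub_const t 1
  have := ((h0.sub (h1.const_mul 2)).add h2).const_mul 2
  exact this.congr_deriv (by unfold rampD; ring)

theorem ramp_cases (t : ℝ) : (t ≤ 0 ∧ ramp t = 0 ∧ rampD t = 0) ∨
    (0 < t ∧ t ≤ 1 / 2 ∧ ramp t = 2 * t ^ 2 ∧ rampD t = 4 * t) ∨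
    (1 / 2 ≤ t ∧ t < 1 ∧ ramp t = 1 - 2 * (1 - t) ^ 2 ∧ rampD t = 4 * (1 - t)) ∨
    (1 ≤ t ∧ ramp t = 1 ∧ rampD t = 0) := by
  unfold ramp rampD
  rcases le_or_gt t 0 with h | h
  · left
    rw [max_eq_right h, max_eq_right (by linarith), max_eq_right (by linarith)]
    exact ⟨h, by ring, by ring⟩
  rcases le_or_gt t (1 / 2) with h1 | h1
  · right; left
    rw [max_eq_left h.le, max_eq_right (by linarith), max_eq_right (by linarith)]
    exact ⟨h, h1, by ring, by ring⟩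
  rcases lt_or_ge t 1 with h2 | h2
  · right; right; left
    rw [max_eq_left h.le, max_eq_left (by linarith), max_eq_right (by linarith)]
    exact ⟨h1.le, h2, by ring, by ring⟩
  · right; right; right
    rw [max_eq_left h.le, max_eq_left (by linarith), max_eq_left (by linarith)]
    exact ⟨h2, by ring, by ring⟩

theorem ramp_zero {t : ℝ} (h : t ≤ 0) : ramp t = 0 := by
  rcases ramp_cases t with a | a | a | a <;> linarith [a.1, a.2.1]
theorem rampD_zero {t : ℝ} (h : t ≤ 0) : rampD t = 0 := by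
  rcases ramp_cases t with a | a | a | a <;> linarith [a.1, a.2.2]
theorem ramp_one {t : ℝ} (h : 1 ≤ t) : ramp t = 1 := by
  rcases ramp_cases t with a | a | a | a <;> linarith [a.1, a.2.1]
theorem rampD_one {t : ℝ} (h : 1 ≤ t) : rampD t = 0 := by
  rcases ramp_cases t with a | a | a | a
  · exact a.2.2
  · linarith [a.2.1]
  · linarith [a.2.1]
  · exact a.2.2
theorem ramp_nonneg (t : ℝ) : 0 ≤ ramp t := by
  rcases ramp_cases t with ⟨-, a, -⟩ | ⟨-, -, a, -⟩ | ⟨b, c, a, -⟩ | ⟨-, a, -⟩ <;> rw [a] <;>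
    nlinarith
theorem ramp_le (t : ℝ) : ramp t ≤ 1 := by
  rcases ramp_cases t with ⟨-, a, -⟩ | ⟨b, c, a, -⟩ | ⟨b, c, a, -⟩ | ⟨-, a, -⟩ <;> rw [a] <;>
    nlinarith
theorem ramp_lt {t : ℝ} (h : t < 1) : ramp t < 1 := by
  rcases ramp_cases t with ⟨-, a, -⟩ | ⟨b, c, a, -⟩ | ⟨b, c, a, -⟩ | ⟨b, a, -⟩ <;> rw [a] <;>
    nlinarith
theorem ramp_pos {t : ℝ} (h : 0 < t) : 0 < ramp t := by
  rcases ramp_cases t with ⟨b, a, -⟩ | ⟨b, c, a, -⟩ | ⟨b, c, a, -⟩ | ⟨b, a, -⟩ <;> rw [a] <;>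
    nlinarith
theorem rampD_nonneg (t : ℝ) : 0 ≤ rampD t := by
  rcases ramp_cases t with ⟨-, -, a⟩ | ⟨b, c, -, a⟩ | ⟨b, c, -, a⟩ | ⟨-, -, a⟩ <;> rw [a] <;>
    linarith
theorem rampD_le (t : ℝ) : rampD t ≤ 2 := by
  rcases ramp_cases t with ⟨-, -, a⟩ | ⟨b, c, -, a⟩ | ⟨b, c, -, a⟩ | ⟨-, -, a⟩ <;> rw [a] <;>
    linarith

/-- `C^1` with positive derivative -/
def Inc (f : ℝ → ℝ) : Prop := ∃ D, C1 f D ∧ ∀ t, 0 < D t

theorem inc_aff (a : ℝ) {b : ℝ} (hb : 0 < b) : Inc fun t => a + b * t :=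
  ⟨fun _ => b, ⟨fun t => by simpa using ((hasDerivAt_id t).const_mul b).const_add a,
    continuous_const⟩, fun _ => hb⟩

theorem inc_id : Inc fun t => t := by simpa using inc_aff 0 one_pos

theorem Inc.comp {f g : ℝ → ℝ} (hf : Inc f) (hg : Inc g) : Inc fun t => f (g t) := by
  obtain ⟨D, h1, h2⟩ := hf
  obtain ⟨E, h3, h4⟩ := hg
  exact ⟨fun t => D (g t) * E t, ⟨fun t => (h1.1 (g t)).comp t (h3.1 t),
    (h1.2.comp h3.cont).mul h3.2⟩, fun t => mul_pos (h2 _) (h4 _)⟩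

noncomputable def glue (a w : ℝ) (f1 f2 : ℝ → ℝ) (t : ℝ) : ℝ :=
  f1 t + ramp ((t - a) / w) * (f2 t - f1 t)

theorem glue_left {a w : ℝ} (hw : 0 < w) (f1 f2 : ℝ → ℝ) {t : ℝ} (h : t ≤ a) :
    glue a w f1 f2 t = f1 t := by
  unfold glue; rw [ramp_zero (div_nonpos_of_nonpos_of_nonneg (by linarith) hw.le)]; ring

theorem glue_right {a w : ℝ} (hw : 0 < w) (f1 f2 : ℝ → ℝ) {t : ℝ} (h : a + w ≤ t) :
    glue a w f1 f2 t = f2 t := by
  unfold glue; rw [ramp_one ((one_le_div hw).2 (by linarith))]; ring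

theorem glue_le {a w : ℝ} {f1 f2 : ℝ → ℝ} {t M : ℝ} (h1 : f1 t ≤ M) (h2 : f2 t ≤ M) :
    glue a w f1 f2 t ≤ M := by
  unfold glue; nlinarith [ramp_nonneg ((t - a) / w), ramp_le ((t - a) / w)]

theorem le_glue {a w : ℝ} {f1 f2 : ℝ → ℝ} {t M : ℝ} (h1 : M ≤ f1 t) (h2 : M ≤ f2 t) :
    M ≤ glue a w f1 f2 t := by
  unfold glue; nlinarith [ramp_nonneg ((t - a) / w), ramp_le ((t - a) / w)]

theorem inc_glue {a w : ℝ} (hw : 0 < w) {f1 f2 : ℝ → ℝ} (h1 : Inc f1) (h2 : Inc f2)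
    (h : ∀ t, a ≤ t → t ≤ a + w → f1 t ≤ f2 t) : Inc (glue a w f1 f2) := by
  obtain ⟨D, a1, a2⟩ := h1
  obtain ⟨E, a3, a4⟩ := h2
  refine ⟨fun t => D t + (rampD ((t - a) / w) * (1 / w) * (f2 t - f1 t) +
    ramp ((t - a) / w) * (E t - D t)), ⟨fun t => ?_, ?_⟩, fun t => ?_⟩
  · have b1 : HasDerivAt (fun t => (t - a) / w) (1 / w) t :=
      ((hasDerivAt_id t).sub_const a).div_const w
    exact (a1.1 t).add (((ramp_C1.1 _).comp t b1).mul ((a3.1 t).sub (a1.1 t)))
  · have := a1.cont; have := a3.cont; have := a1.2; have := a3.2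
    have := ramp_C1.cont; have := ramp_C1.2
    fun_prop
  · have b2 : 0 ≤ rampD ((t - a) / w) * (1 / w) * (f2 t - f1 t) := by
      rcases le_or_gt t a with c | c
      · rw [rampD_zero (div_nonpos_of_nonpos_of_nonneg (by linarith) hw.le)]; simp
      rcases le_or_gt (a + w) t with c' | c'
      · rw [rampD_one ((one_le_div hw).2 (by linarith))]; simp
      · have := rampD_nonneg ((t - a) / w)
        have := sub_nonneg.2 (h t c.le c'.le)
        positivity
    have b3 := ramp_nonneg ((t - a) / w)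
    have b4 := ramp_le ((t - a) / w)
    have b5 := a2 t
    have b6 := a4 t
    rcases le_total (D t) (E t) with c | c <;> nlinarith

/-- `f` on `[-R, R]`, the identity off `[-R-1, R+1]` -/
noncomputable def cap (R : ℝ) (f : ℝ → ℝ) : ℝ → ℝ :=
  glue (-(R + 1)) 1 (fun t => t) (glue R 1 f fun t => t)

section
variable {R : ℝ} {f : ℝ → ℝ} (hR : 3 ≤ R) (hf : ∀ t, |t| ≤ R + 1 → |f t| ≤ 2)
include hR hf

theorem inc_cap (h : Inc f) : Inc (cap R f) := by
  refine inc_glue one_pos inc_id (inc_glue one_pos h inc_id fun t h1 h2 => ?_) fun t h1 h2 => ?_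
  · have := (abs_le.1 (hf t (abs_le.2 ⟨by linarith, h2⟩))).2
    linarith
  · rw [glue_left one_pos _ _ (by linarith)]
    have := (abs_le.1 (hf t (abs_le.2 ⟨h1, by linarith⟩))).1
    linarith

omit hf in
theorem cap_in {t : ℝ} (h : |t| ≤ R) : cap R f t = f t := by
  obtain ⟨h1, h2⟩ := abs_le.1 h
  unfold cap
  rw [glue_right one_pos _ _ (by linarith), glue_left one_pos _ _ h2]

omit hf in
theorem cap_out {t : ℝ} (h : R + 1 ≤ |t|) : cap R f t = t := by
  unfold cap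
  rcases le_abs.1 h with h | h
  · rw [glue_right one_pos _ _ (by linarith), glue_right one_pos _ _ h]
  · rw [glue_left one_pos _ _ (by linarith)]

theorem cap_mid {t : ℝ} (h1 : R < |t|) (h2 : |t| < R + 1) : |cap R f t| < |t| := by
  obtain ⟨a1, a2⟩ := abs_le.1 (hf t h2.le)
  obtain ⟨a3, a4⟩ := abs_lt.1 h2
  unfold cap
  rcases lt_abs.1 h1 with h | h
  · rw [glue_right one_pos _ _ (by linarith), abs_of_pos (show 0 < t by linarith), abs_lt]
    unfold glue
    have b1 := ramp_nonneg ((t - R) / 1)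
    have b2 : ramp ((t - R) / 1) < 1 := ramp_lt (by linarith)
    constructor <;> nlinarith
  · rw [abs_of_neg (show t < 0 by linarith), abs_lt]
    unfold glue
    have b0 : ramp ((t - R) / 1) = 0 := ramp_zero (by linarith)
    have b1 := ramp_le ((t - -(R + 1)) / 1)
    have b2 : 0 < ramp ((t - -(R + 1)) / 1) := ramp_pos (by linarith)
    rw [b0]
    constructor <;> nlinarith

theorem cap_le {t : ℝ} (h1 : R < |t|) : |cap R f t| ≤ |t| := by
  rcases lt_or_ge |t| (R + 1) with h | h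
  · exact (cap_mid hR hf h1 h).le
  · rw [cap_out hR h]

theorem cap_bdd (t : ℝ) : |cap R f t - t| ≤ 2 * (R + 1) := by
  rcases le_or_gt (R + 1) |t| with h | h
  · rw [cap_out hR h]; simp; linarith
  have := abs_sub (cap R f t) t
  rcases le_or_gt |t| R with h' | h'
  · rw [cap_in hR h'] at this ⊢
    linarith [hf t h.le]
  · linarith [cap_le hR hf h']

end

/-- plateau function -/
noncomputable def plat (R t : ℝ) : ℝ := ramp (R + 1 - t) * ramp (R + 1 + t)
noncomputable def platD (R t : ℝ) : ℝ :=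
  -rampD (R + 1 - t) * ramp (R + 1 + t) + ramp (R + 1 - t) * rampD (R + 1 + t)

theorem plat_C1 (R : ℝ) : C1 (plat R) (platD R) := by
  refine ⟨fun t => ?_, ?_⟩
  · exact ((ramp_C1.1 _).comp_const_sub (R + 1) t).mul ((ramp_C1.1 _).comp_const_add (R + 1) t)
  · have := ramp_C1.cont; have := ramp_C1.2
    unfold platD; fun_prop

theorem plat_nonneg (R t : ℝ) : 0 ≤ plat R t := mul_nonneg (ramp_nonneg _) (ramp_nonneg _)
theorem plat_le (R t : ℝ) : plat R t ≤ 1 :=
  mul_le_one₀ (ramp_le _) (ramp_nonneg _) (ramp_le _)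
theorem plat_one {R t : ℝ} (h : |t| ≤ R) : plat R t = 1 := by
  obtain ⟨h1, h2⟩ := abs_le.1 h
  unfold plat; rw [ramp_one (by linarith), ramp_one (by linarith), mul_one]
theorem plat_zero {R t : ℝ} (h : R + 1 ≤ |t|) : plat R t = 0 := by
  unfold plat
  rcases le_abs.1 h with h | h
  · rw [ramp_zero (by linarith), zero_mul]
  · rw [ramp_zero (t := R + 1 + t) (by linarith), mul_zero]
theorem plat_pos {R t : ℝ} (h : |t| < R + 1) : 0 < plat R t := by
  obtain ⟨h1, h2⟩ := abs_lt.1 h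
  exact mul_pos (ramp_pos (by linarith)) (ramp_pos (by linarith))
theorem platD_zero {R t : ℝ} (h : R + 1 ≤ |t|) : platD R t = 0 := by
  unfold platD
  rcases le_abs.1 h with h | h
  · rw [ramp_zero (t := R + 1 - t) (by linarith), rampD_zero (by linarith)]; simp
  · rw [ramp_zero (t := R + 1 + t) (by linarith), rampD_zero (t := R + 1 + t) (by linarith)]; simp
theorem platD_le (R t : ℝ) : |platD R t| ≤ 2 := by
  unfold platD
  have a1 := ramp_nonneg (R + 1 - t); have a2 := ramp_le (R + 1 - t)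
  have a3 := ramp_nonneg (R + 1 + t); have a4 := ramp_le (R + 1 + t)
  have a5 := rampD_nonneg (R + 1 - t); have a6 := rampD_le (R + 1 - t)
  have a7 := rampD_nonneg (R + 1 + t); have a8 := rampD_le (R + 1 + t)
  rw [abs_le]; constructor <;> nlinarith

end Pool.Agent.H111Z.Base
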